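import Pool.Agent.U222.SM.Defs

/-!
# The log étale cohomology of log smooth varieties over a log point: definitions
-/

set_option autoImplicit false

open Finset TensorProduct

namespace Pool.Agent.U222.LG

open Pool.Agent.U222.SL Pool.Agent.U222.CR.Pub Pool.Agent.U222.SM

variable (K : Type) {𝒱 : Type} (H : 𝒱 → Type) (Γ : Type) [Field K] [Mul 𝒱] [Group Γ]
  [∀ X, AddCommGroup (H X)] [∀ X, Module K (H X)]

/-- The log étale cohomology `H X` of the log schemes `X` of a class closed under products over the log
point `s`: the action of the log fundamental group `Γ` of `s`, the cohomology `gr X m` of degree `m`, the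
isomorphisms of Künneth and the Chern classes in `H^(2 j) (X) (j)` of the elements of the graded pieces
`gr^j K_{0,lim} (X)`. -/
structure LogCohomology : Type where
  act : ∀ X, Γ →* Module.End K (H X)
  gr : ∀ X, ℕ → Submodule K (H X)
  kunneth : ∀ X Y, H X ⊗[K] H Y ≃ₗ[K] H (X * Y)
  chern : ∀ X, ℕ → Set (H X)

variable {K H Γ}

/-- The invariants of `Γ` in the cohomology `H^m (X) (r)` of degree `m` with a Tate twist by `r`. -/
def LogCohomology.invariants (T : LogCohomology K H Γ) (χ : Γ →* Kˣ) (X : 𝒱) (m r : ℕ) : Set (H X) :=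
  {x | x ∈ T.gr X m ∧ IsTwisted χ (T.act X) r x}

/-- The isomorphisms of Künneth are compatible with the action of `Γ` and with the degrees, the Chern
classes are of degree `2 j` and invariant after a Tate twist, and the products of Chern classes are
Chern classes; there are no nonzero invariants in the cohomology with a negative Tate twist (the
eigenvalues of the Frobenius elements are integral). -/
structure LogCohomology.IsStandard (T : LogCohomology K H Γ) (χ : Γ →* Kˣ) : Prop where
  cross : ∀ X Y γ (x : H X) (y : H Y), T.act (X * Y) γ (cross (T.kunneth X Y) x y) =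
    cross (T.kunneth X Y) (T.act X γ x) (T.act Y γ y)
  degree : ∀ X Y n, T.gr (X * Y) n = crossSpan (T.kunneth X Y) (T.gr X) (T.gr Y) n
  chern : ∀ X j, T.chern X j ⊆ T.invariants χ X (2 * j) j
  mul : ∀ X Y i j, ∀ x ∈ T.chern X i, ∀ y ∈ T.chern Y j,
    Pool.Agent.U222.CR.Pub.cross (T.kunneth X Y) x y ∈ T.chern (X * Y) (i + j)
  integral : ∀ X (j : ℕ), 0 < j → ∀ x : H X, (∀ γ, ((χ γ : Kˣ) : K) ^ j • T.act X γ x = x) → x = 0

/-- The linear form `l` on `H X` (`X` smooth projective, without log structure) is given by the intersection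
with an algebraic cycle of dimension `d`: it is zero in the degrees different from `2 d`, and the slant
products (push-forwards to `Y` of products with the cycle) map Chern classes on `X × Y` to Chern
classes on `Y`. -/
def LogCohomology.IsAlgebraic (T : LogCohomology K H Γ) {X : 𝒱} (l : H X →ₗ[K] K) (d : ℕ) : Prop :=
  (∀ n, n ≠ 2 * d → ∀ x ∈ T.gr X n, l x = 0) ∧
    ∀ Y w, d ≤ w → ∀ z ∈ T.chern (X * Y) w, slant (T.kunneth X Y) l z ∈ T.chern Y (w - d)

/-- `X` is smooth projective, without log structure, and a model of a cyclic covering: the reduction at a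
closed point with the Frobenius `σ` is the covering `C`, and the cohomology of `X` is the direct sum of
the lines of the classes `e k` of algebraic cycles of codimension `codim k` (the codimension zero occurs)
and of a part `W` without invariants of the covering group; the coordinates `l k` of `e k` are given
by algebraic cycles. -/
structure LogCohomology.IsModel (T : LogCohomology K H Γ) [Algebra K ℂ] {κ : Type} [Field κ]
    [Fintype κ] (C : Covering κ) (σ : Γ) (X : 𝒱) {I : Type} [Fintype I] [DecidableEq I]
    (codim : I → ℕ) (e : I → H X) (l : I → H X →ₗ[K] K) : Prop where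
  unit : ∃ k, codim k = 0
  cycle : ∀ k, e k ∈ T.chern X (codim k)
  algebraic : ∀ k, T.IsAlgebraic (l k) (codim k)
  dual : IsDual e l
  part : ∃ (W : Submodule K (H X)) (Φ g : Module.End K W),
    IsCoveringPart C (T.act X) σ e l W Φ g

/-- The products `e_{k_1} × (e_{k_2} × (⋯ × z))` of classes of cycles on the `X_i` and of a class `z` on
`Z` in `P (m - 2 codim) (r - codim)`, where `codim` is the sum of the codimensions of the `e_{k_i}`. -/
def LogCohomology.products (T : LogCohomology K H Γ) {ι : Type} {X : ι → 𝒱} {Z : 𝒱} {I : ι → Type}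
    (codim : ∀ i, I i → ℕ) (e : ∀ i, I i → H (X i)) (P : ℕ → ℕ → Set (H Z)) :
    ∀ (L : List ι), ℕ → ℕ → Set (H (productOf X Z L))
  | [], m, r => P m r
  | i :: L, m, r => {x | ∃ (k : I i) (y : H (productOf X Z L)), 2 * codim i k ≤ m ∧
      codim i k ≤ r ∧ y ∈ T.products codim e P L (m - 2 * codim i k) (r - codim i k) ∧
      cross (T.kunneth (X i) (productOf X Z L)) (e i k) y = x}

/-- The log Tate conjecture for `X` in degree `2 r`: the invariants in `H^(2 r) (X) (r)` are linear
combinations of Chern classes. -/
def LogCohomology.LogTate (T : LogCohomology K H Γ) (χ : Γ →* Kˣ) (X : 𝒱) (r : ℕ) : Prop :=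
  ∀ x ∈ T.invariants χ X (2 * r) r, x ∈ Submodule.span K (T.chern X r)

/-- The log scheme `Z` has the cohomology of a connected log curve: it is in degrees at most `2`, and
spanned by Chern classes in the degrees `0` and `2`. -/
def LogCohomology.IsCurve (T : LogCohomology K H Γ) (Z : 𝒱) : Prop :=
  (∀ x ∈ T.gr Z 0, x ∈ Submodule.span K (T.chern Z 0)) ∧
    (∀ x ∈ T.gr Z 2, x ∈ Submodule.span K (T.chern Z 1)) ∧ ∀ d, 2 < d → ∀ x ∈ T.gr Z d, x = 0

/-- The log scheme `Z` has the cohomology of a connected log surface: it is in degrees at most `4`, and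
spanned by Chern classes in the degrees `0` and `4`. -/
def LogCohomology.IsSurface (T : LogCohomology K H Γ) (Z : 𝒱) : Prop :=
  (∀ x ∈ T.gr Z 0, x ∈ Submodule.span K (T.chern Z 0)) ∧
    (∀ x ∈ T.gr Z 4, x ∈ Submodule.span K (T.chern Z 2)) ∧ ∀ d, 4 < d → ∀ x ∈ T.gr Z d, x = 0

/-- The conclusions for the product `V × Z` of `Z` and of the `X_i` with the indices in the list `L`. -/
structure LogCohomology.Conclusions (T : LogCohomology K H Γ) (χ : Γ →* Kˣ) {ι : Type} (X : ι → 𝒱)
    (Z : 𝒱) {I : ι → Type} (codim : ∀ i, I i → ℕ) (e : ∀ i, I i → H (X i)) (L : List ι) : Prop where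
  curve : T.IsCurve Z → ∀ r, T.LogTate χ (productOf X Z L) r
  surface : T.IsSurface Z → ((∀ r, T.LogTate χ (productOf X Z L) r) ↔ T.LogTate χ Z 1)
  tate : ∀ n, (∀ r ≤ n, T.LogTate χ (productOf X Z L) r) ↔ ∀ r ≤ n, T.LogTate χ Z r
  classes : ∀ m r, T.invariants χ (productOf X Z L) m r =
    (Submodule.span K (T.products codim e (T.invariants χ Z) L m r) : Set _)

end Pool.Agent.U222.LG
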