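import Pool.Agent.U222.SM.Main
import Pool.Agent.U222.LG.Defs

/-!
# The log Tate conjecture for products
-/

set_option autoImplicit false
set_option linter.unusedSectionVars false

open Finset TensorProduct

namespace Pool.Agent.U222.LG

open Pool.Agent.U222.SL Pool.Agent.U222.CR.Pub Pool.Agent.U222.SM Pool.Agent.N876.FL

variable {K 𝒱 Γ : Type} {H : 𝒱 → Type} [Field K] [Mul 𝒱] [Group Γ] [∀ X, AddCommGroup (H X)]
  [∀ X, Module K (H X)]

section basic

variable {T : LogCohomology K H Γ} {χ : Γ →* Kˣ}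

/-- the theory as a cohomology theory with cycles -/
def toC (T : LogCohomology K H Γ) : SM.Cohomology K H Γ := ⟨T.act, T.gr, T.kunneth, T.chern⟩

theorem toC_std (hT : T.IsStandard χ) : (toC T).IsStandard χ :=
  ⟨hT.cross, hT.degree, hT.chern, hT.mul⟩

theorem cross_inv (hT : T.IsStandard χ) {X Y : 𝒱} {j m r : ℕ} {x : H X} {y : H Y}
    (hx : x ∈ T.invariants χ X (2 * j) j) (hy : y ∈ T.invariants χ Y m r) :
    cross (T.kunneth X Y) x y ∈ T.invariants χ (X * Y) (2 * j + m) (j + r) := by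
  refine ⟨SM.cross_deg (toC_std hT) hx.1 hy.1, fun γ => ?_⟩
  rw [hT.cross, hx.2 γ, hy.2 γ, SM.smul_cross, SM.cross_smul, smul_smul, pow_add]

theorem inv_sub (T : LogCohomology K H Γ) (χ : Γ →* Kˣ) (V : 𝒱) (m r : ℕ) {A : Set (H V)}
    (hA : A ⊆ T.invariants χ V m r) {x : H V} (hx : x ∈ Submodule.span K A) :
    x ∈ T.invariants χ V m r := by
  induction hx using Submodule.span_induction with
  | mem z hz => exact hA hz
  | zero => exact ⟨Submodule.zero_mem _, fun γ => by rw [map_zero, smul_zero]⟩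
  | add z z' _ _ h h' => exact ⟨Submodule.add_mem _ h.1 h'.1, fun γ => by
      rw [map_add, h.2 γ, h'.2 γ, smul_add]⟩
  | smul a z _ h => exact ⟨Submodule.smul_mem _ _ h.1, fun γ => by
      rw [map_smul, h.2 γ, smul_comm]⟩

end basic

section model

variable {T : LogCohomology K H Γ} {χ : Γ →* Kˣ} [Algebra K ℂ] {κ : Type} [Field κ] [Fintype κ]
  {C : Covering κ} {σ : Γ} {X : 𝒱} {I : Type} [Fintype I] [DecidableEq I] {codim : I → ℕ}
  {e : I → H X} {l : I → H X →ₗ[K] K}

theorem toC_model (h : T.IsModel C σ X codim e l) : (toC T).IsModel C σ X codim e l :=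
  ⟨h.unit, h.cycle, h.algebraic, h.dual, h.part⟩

/-- the slant product of an invariant class -/
theorem slant_inv (hT : T.IsStandard χ) (h : T.IsModel C σ X codim e l) (k : I) {Y : 𝒱} {m r : ℕ}
    {z : H (X * Y)} (hz : z ∈ T.invariants χ (X * Y) m r) :
    (2 * codim k ≤ m → codim k ≤ r →
      slant (T.kunneth X Y) (l k) z ∈ T.invariants χ Y (m - 2 * codim k) (r - codim k)) ∧
      (¬(2 * codim k ≤ m ∧ codim k ≤ r) → slant (T.kunneth X Y) (l k) z = 0) := by
  have h1 := SM.slant_deg (toC_std hT) (h.algebraic k).1 hz.1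
  have h2 := fun γ => SM.slant_act (toC_std hT) (toC_model h) k γ Y z
  have h5 : ∀ γ, ((χ γ : Kˣ) : K) ^ codim k ≠ 0 := fun γ => pow_ne_zero _ (Units.ne_zero _)
  have h6 : ∀ γ, ((χ γ : Kˣ) : K) ^ r • slant (T.kunneth X Y) (l k) z =
      ((χ γ : Kˣ) : K) ^ codim k • T.act Y γ (slant (T.kunneth X Y) (l k) z) := by
    intro γ
    have h3 := h2 γ
    have h4 : (toC T).act (X * Y) γ z = ((χ γ : Kˣ) : K) ^ r • z := hz.2 γ
    rw [h4, SM.slant_smul] at h3
    exact h3
  refine ⟨fun hm hk => ⟨h1.1 hm, fun γ => ?_⟩, fun hk => ?_⟩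
  · refine smul_right_injective _ (h5 γ) ?_
    show ((χ γ : Kˣ) : K) ^ codim k • _ = ((χ γ : Kˣ) : K) ^ codim k • _
    rw [← h6, smul_smul, ← pow_add, Nat.add_sub_cancel' hk]
  · rcases Nat.lt_or_ge m (2 * codim k) with h | h
    · exact h1.2 h
    · have hk' : r < codim k := by
        by_contra hr
        exact hk ⟨h, by omega⟩
      refine hT.integral Y (codim k - r) (by omega) _ fun γ => ?_
      have h7 : ((χ γ : Kˣ) : K) ^ r ≠ 0 := pow_ne_zero _ (Units.ne_zero _)
      refine smul_right_injective _ h7 ?_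
      show ((χ γ : Kˣ) : K) ^ r • _ = ((χ γ : Kˣ) : K) ^ r • _
      rw [smul_smul, ← pow_add, Nat.add_sub_cancel' hk'.le, ← h6]

end model

section frobenius

variable [∀ X, FiniteDimensional K (H X)] {χ : Γ →* Kˣ} [Algebra K ℂ]
  {κ : Type} [Field κ] [Fintype κ] {σ : Γ}

/-- the components of a class on a product which the Frobenius multiplies by a power of `q` -/
theorem comp_fix {T : SM.Cohomology K H Γ} (c : ℕ) [Fact c.Prime] [CharP κ c] (f : ℕ)
    (hf : Fintype.card κ = c ^ f) (hT : T.IsStandard χ)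
    (hσ : ((χ σ : Kˣ) : K) = (Fintype.card κ : K)) {ι : Type} [Fintype ι] [DecidableEq ι]
    {C : ι → Covering κ} {X : ι → 𝒱} {U : 𝒱} {I : ι → Type} [∀ i, Fintype (I i)]
    [∀ i, DecidableEq (I i)] {codim : ∀ i, I i → ℕ} {e : ∀ i, I i → H (X i)}
    {l : ∀ i, I i → H (X i) →ₗ[K] K}
    (hX : ∀ i, T.IsModel (C i) σ (X i) (codim i) (e i) (l i)) {lam b N : ℕ}
    (hC : IsAdmissibleFamily C c f N lam b)
    (hU : IsAdmissibleFactor c (Fintype.card κ) N lam b (complexified (T.act U σ)))
    {i : ι} {L : List ι} (hL : (i :: L).Nodup) {w : ℕ} {x : H (X i * productOf X U L)}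
    (hx : T.act _ σ x = ((χ σ : Kˣ) : K) ^ w • x) :
    x = ∑ k, cross (T.kunneth (X i) (productOf X U L)) (e i k)
      (slant (T.kunneth (X i) (productOf X U L)) (l i k) x) := by
  have hf0 : 0 < f := by
    rcases Nat.eq_zero_or_pos f with h | h
    · rw [h, pow_zero] at hf
      have := Fintype.one_lt_card (α := κ)
      omega
    · exact h
  have hq1 : 1 < Fintype.card κ := Fintype.one_lt_card
  obtain ⟨hC, hN⟩ := hC
  obtain ⟨hU, hfew⟩ := hU
  have hN' : 0 < N ∧ (∀ i, (C i).N ∣ N) ∧ IsSeparated C c f N lam b := by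
    rcases hN with h | ⟨rfl, h1, h2, h3⟩
    · exact h
    · exact ⟨prod_pos fun i _ => (h1 i).1.pos, fun i => dvd_prod_of_mem _ (mem_univ i),
        isSeparated_of_large hf0 h1 h2 h3⟩
  have hfew' : HasFewSlopes c (Fintype.card κ) N lam b (complexified (T.act U σ)) := by
    rcases hfew with h | h
    · exact h
    · exact hasFewSlopes_of hq1 hU h
  choose W Φ g h1 h2 h3 h4 h5 using fun i => (cr_model hT (hX i)).rest
  have hcov : ∀ i, Pool.Agent.N876.TC.IsCov (C i).N (C i).l (C i).a (C i).z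
      (complexified (Φ i)) (complexified (g i)) :=
    fun i => ⟨(h4 i).commute, (h4 i).order, (h4 i).invariants,
      fun L _ _ _ t => (h4 i).lefschetz L t⟩
  have hres : Pool.Agent.N876.FL.NoResF (Fintype.card κ : ℂ)
      (fun i => {α | (complexified (Φ i)).HasEigenvalue α})
      {β | (complexified ((toCr T σ).Fr U)).HasEigenvalue β} := by
    refine nores_fewF hN'.1 (fun i => (hC i).two_le) hN'.2.1 κ hf (fun i => (hC i).root)
      (fun i => (C i).l) (fun i => (C i).a) (fun i => (hC i).coprime) (RingHom.id ℂ) hcov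
      ((isSeparated_iff hf0 hN'.1 hN'.2.1).1 hN'.2.2) h5 ?_
    rintro _ ⟨β, hβ, rfl⟩
    obtain ⟨h6, d, h7⟩ := hU β hβ
    exact ⟨h6, d, h7, hfew' β hβ d h7⟩
  have hD : Pool.Agent.U222.CR.Data (toCr T σ) (RingEquiv.refl K) (Fintype.card κ) 1
      (Fintype.card κ) C X U codim e l W Φ :=
    ⟨cr_cry hT hσ, (pow_one _).symm, hq1, rfl, fun i => cr_model hT (hX i),
      fun i => ⟨h1 i, h2 i, h3 i⟩, h5, fun β hβ => (hU β hβ).2, hres⟩
  have h6 := (Pool.Agent.U222.CR.comp_eig hD hL (m := 1) one_pos (w := w) (x := x) (by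
    rw [pow_one, one_mul]
    have h7 := hx
    rw [hσ] at h7
    exact h7)).1
  exact h6

end frobenius

section main

variable {T : LogCohomology K H Γ} {χ : Γ →* Kˣ}
  {ι : Type} {X : ι → 𝒱} {Z : 𝒱} {I : ι → Type} [∀ i, Fintype (I i)]
  {codim : ∀ i, I i → ℕ} {e : ∀ i, I i → H (X i)} {l : ∀ i, I i → H (X i) →ₗ[K] K}

/-- what is needed of the factors -/
structure Good (T : LogCohomology K H Γ) (χ : Γ →* Kˣ) (X : ι → 𝒱) (Z : 𝒱)
    (codim : ∀ i, I i → ℕ) (e : ∀ i, I i → H (X i)) (l : ∀ i, I i → H (X i) →ₗ[K] K) : Prop where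
  std : T.IsStandard χ
  unit : ∀ i, ∃ k, codim i k = 0
  cyc : ∀ i k, e i k ∈ T.chern (X i) (codim i k)
  one : ∀ i k, l i k (e i k) = 1
  alg : ∀ i k (Y : 𝒱) (w : ℕ), codim i k ≤ w → ∀ z ∈ T.chern (X i * Y) w,
    slant (T.kunneth (X i) Y) (l i k) z ∈ T.chern Y (w - codim i k)
  act : ∀ i k γ (Y : 𝒱) (z : H (X i * Y)), slant (T.kunneth (X i) Y) (l i k) (T.act (X i * Y) γ z) =
      ((χ γ : Kˣ) : K) ^ codim i k • T.act Y γ (slant (T.kunneth (X i) Y) (l i k) z)
  st : ∀ i k (Y : 𝒱) (m r : ℕ) (z : H (X i * Y)), z ∈ T.invariants χ (X i * Y) m r →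
    (2 * codim i k ≤ m → codim i k ≤ r →
      slant (T.kunneth (X i) Y) (l i k) z ∈
        T.invariants χ Y (m - 2 * codim i k) (r - codim i k)) ∧
      (¬(2 * codim i k ≤ m ∧ codim i k ≤ r) → slant (T.kunneth (X i) Y) (l i k) z = 0)
  comp : ∀ (i : ι) (L : List ι), (i :: L).Nodup → ∀ (m r : ℕ) (x : H (X i * productOf X Z L)),
    x ∈ T.invariants χ (X i * productOf X Z L) m r →
      x = ∑ k, cross (T.kunneth (X i) (productOf X Z L)) (e i k)
        (slant (T.kunneth (X i) (productOf X Z L)) (l i k) x)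

/-- A property of invariant classes which passes from the base to products and back. -/
theorem transfer (h : Good T χ X Z codim e l) (t n : ℕ) (Q : ∀ Y : 𝒱, ℕ → H Y → Prop)
    (Q0 : ∀ Y r, Q Y r 0) (Qadd : ∀ Y r x y, Q Y r x → Q Y r y → Q Y r (x + y))
    (Qc : ∀ i k (Y : 𝒱) (r : ℕ), codim i k ≤ r → ∀ y, Q Y (r - codim i k) y →
      Q (X i * Y) r (cross (T.kunneth (X i) Y) (e i k) y))
    (Qs : ∀ i k (Y : 𝒱) (r : ℕ), codim i k = 0 → ∀ z, Q (X i * Y) r z →
      Q Y r (slant (T.kunneth (X i) Y) (l i k) z)) : ∀ L : List ι, L.Nodup →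
    ((∀ r ≤ n, ∀ x ∈ T.invariants χ (productOf X Z L) (2 * r + t) r, Q _ r x) ↔
      ∀ r ≤ n, ∀ x ∈ T.invariants χ Z (2 * r + t) r, Q Z r x) := by
  intro L
  induction L with
  | nil => intro _; exact Iff.rfl
  | cons i L ih =>
    intro hL
    rw [← ih (List.nodup_cons.1 hL).2]
    constructor
    · intro hT r hr b hb
      obtain ⟨k, hk⟩ := h.unit i
      have h1 : cross (T.kunneth (X i) (productOf X Z L)) (e i k) b ∈
          T.invariants χ (X i * productOf X Z L) (2 * codim i k + (2 * r + t)) (codim i k + r) :=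
        cross_inv h.std (h.std.chern _ _ (h.cyc i k)) hb
      rw [hk, mul_zero, zero_add, zero_add] at h1
      have h2 := Qs i k (productOf X Z L) r hk _ (hT r hr _ h1)
      rwa [SM.slant_cross, h.one, one_smul] at h2
    · intro hT r hr x hx
      rw [h.comp i L hL _ r x hx]
      have hQ : ∀ s : Finset (I i), Q (X i * productOf X Z L) r
          (∑ k ∈ s, cross (T.kunneth (X i) (productOf X Z L)) (e i k)
            (slant (T.kunneth (X i) (productOf X Z L)) (l i k) x)) := by
        classical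
        intro s
        induction s using Finset.induction_on with
        | empty => rw [sum_empty]; exact Q0 _ _
        | insert k s hk ih' =>
          rw [sum_insert hk]
          refine Qadd _ _ _ _ ?_ ih'
          rcases Nat.lt_or_ge r (codim i k) with hk | hk
          · rw [((h.st i k _ _ r x hx).2 (by omega)), SM.cross_zero]
            exact Q0 _ _
          · have h3 := (h.st i k _ _ r x hx).1 (by omega) hk
            have h4 : 2 * r + t - 2 * codim i k = 2 * (r - codim i k) + t := by omega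
            rw [h4] at h3
            exact Qc i k _ r hk _ (hT (r - codim i k) (by omega) _ h3)
      exact hQ univ

theorem tate_iff (h : Good T χ X Z codim e l) (n : ℕ) (L : List ι) (hL : L.Nodup) :
    (∀ r ≤ n, T.LogTate χ (productOf X Z L) r) ↔ ∀ r ≤ n, T.LogTate χ Z r :=
  transfer h 0 n (fun Y r x => x ∈ Submodule.span K (T.chern Y r))
    (fun _ _ => Submodule.zero_mem _) (fun _ _ _ _ hx hy => Submodule.add_mem _ hx hy)
    (fun i k Y r hk y hy => SM.cross_span (T := toC T) (fun y hy => by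
      have h4 := h.std.mul _ _ _ _ _ (h.cyc i k) y hy
      rwa [Nat.add_sub_cancel' hk] at h4) hy)
    (fun i k Y r hk z hz => SM.slant_span (T := toC T) (l := l i) (k := k) (fun z hz => by
      have h4 := h.alg i k Y r (by omega) z hz
      rwa [hk, Nat.sub_zero] at h4) hz) L hL

theorem classes (h : Good T χ X Z codim e l) : ∀ L : List ι, L.Nodup → ∀ m r : ℕ,
    T.invariants χ (productOf X Z L) m r =
      (Submodule.span K (T.products codim e (T.invariants χ Z) L m r) : Set _) := by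
  intro L
  induction L with
  | nil =>
    intro _ m r
    ext x
    exact ⟨fun hx => Submodule.subset_span hx, fun hx => inv_sub T χ _ _ _ (fun y hy => hy) hx⟩
  | cons i L ih =>
    intro hL m r
    obtain ⟨hiL, hL'⟩ := List.nodup_cons.1 hL
    ext x
    constructor
    · intro hx
      have hx' : x ∈ T.invariants χ (X i * productOf X Z L) m r := hx
      have h1 := h.comp i L hL m r x hx'
      rw [h1]
      refine Submodule.sum_mem _ fun k _ => ?_
      by_cases hk : 2 * codim i k ≤ m ∧ codim i k ≤ r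
      · have h3 := (h.st i k _ m r x hx').1 hk.1 hk.2
        rw [ih hL' (m - 2 * codim i k) (r - codim i k)] at h3
        exact SM.cross_span (T := toC T) (B := T.products codim e (T.invariants χ Z) (i :: L) m r)
          (fun y hy => ⟨k, y, hk.1, hk.2, hy, rfl⟩) h3
      · rw [(h.st i k _ m r x hx').2 hk, SM.cross_zero]
        exact Submodule.zero_mem _
    · intro hx
      refine inv_sub T χ _ _ _ ?_ hx
      rintro _ ⟨k, y, hm, hk, hy, rfl⟩
      have hy' : y ∈ T.invariants χ (productOf X Z L) (m - 2 * codim i k) (r - codim i k) := by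
        rw [ih hL' (m - 2 * codim i k) (r - codim i k)]
        exact Submodule.subset_span hy
      have h4 := cross_inv h.std (h.std.chern _ _ (h.cyc i k)) hy'
      rw [Nat.add_sub_cancel' hk, Nat.add_sub_cancel' hm] at h4
      exact h4

theorem tate_zero {V : 𝒱} {r d : ℕ} (hd : ∀ n, d < n → ∀ x ∈ T.gr V n, x = 0) (hr : d < 2 * r) :
    T.LogTate χ V r := by
  intro x hx
  rw [hd _ hr x hx.1]
  exact Submodule.zero_mem _

/-- the main theorem -/
theorem conclusions (h : Good T χ X Z codim e l) (L : List ι) (hL : L.Nodup) :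
    T.Conclusions χ X Z codim e L where
  tate n := tate_iff h n L hL
  classes m r := classes h L hL m r
  curve hU w := by
    refine (tate_iff h w L hL).2 (fun w' _ => ?_) w le_rfl
    obtain ⟨h0, h2, h3⟩ := hU
    rcases Nat.lt_or_ge w' 2 with hw | hw
    · interval_cases w'
      · exact fun x hx => h0 x hx.1
      · exact fun x hx => h2 x hx.1
    · exact tate_zero h3 (by omega)
  surface hU := by
    obtain ⟨h0, h4, h5⟩ := hU
    constructor
    · intro hT
      exact (tate_iff h 1 L hL).1 (fun w _ => hT w) 1 le_rfl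
    · intro hT w
      refine (tate_iff h w L hL).2 (fun w' _ => ?_) w le_rfl
      rcases Nat.lt_or_ge w' 3 with hw | hw
      · interval_cases w'
        · exact fun x hx => h0 x hx.1
        · exact hT
        · exact fun x hx => h4 x hx.1
      · exact tate_zero h5 (by omega)

end main

section final

variable [∀ X, FiniteDimensional K (H X)]

theorem good (c : ℕ) [Fact c.Prime] (κ : Type) [Field κ] [Fintype κ] [CharP κ c] (f : ℕ)
    (hf : Fintype.card κ = c ^ f) [Algebra K ℂ] (T : LogCohomology K H Γ) (χ : Γ →* Kˣ)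
    (hT : T.IsStandard χ) (σ : Γ) (hσ : ((χ σ : Kˣ) : K) = (Fintype.card κ : K))
    {ι : Type} [Fintype ι] [DecidableEq ι] (C : ι → Covering κ)
    (X : ι → 𝒱) {I : ι → Type} [∀ i, Fintype (I i)] [∀ i, DecidableEq (I i)]
    (codim : ∀ i, I i → ℕ) (e : ∀ i, I i → H (X i)) (l : ∀ i, I i → H (X i) →ₗ[K] K)
    (hX : ∀ i, T.IsModel (C i) σ (X i) (codim i) (e i) (l i)) (lam b N : ℕ)
    (hC : IsAdmissibleFamily C c f N lam b) (Z : 𝒱)
    (hZ : IsAdmissibleFactor c (Fintype.card κ) N lam b (complexified (T.act Z σ))) :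
    Good T χ X Z codim e l :=
  ⟨hT, fun i => (hX i).unit, fun i => (hX i).cycle, fun i k => by
      rw [(hX i).dual k k, if_pos rfl],
    fun i k Y w hk z hz => ((hX i).algebraic k).2 Y w hk z hz,
    fun i k γ Y z => SM.slant_act (toC_std hT) (toC_model (hX i)) k γ Y z,
    fun i k Y m r z hz => slant_inv hT (hX i) k hz,
    fun i L hL m r x hx => comp_fix (T := toC T) c f hf (toC_std hT) hσ
      (fun i => toC_model (hX i)) hC hZ hL (hx.2 σ)⟩

end final

end Pool.Agent.U222.LG
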